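import Pool.Agent.X225.Ur.Dist

/-!
# The polymorphisms of the rational order: Bergman property
-/

set_option autoImplicit false

namespace X225.Ur

/-- The polymorphisms of `(ℚ, ≤)`: the operations that are monotone for the componentwise order. -/
def OrdPol : OpFam ℚ := fun n => {f | Monotone (f : (Fin (n + 1) → ℚ) → ℚ)}

lemma ordPol_isClone : IsClone OrdPol where
  proj := fun _ i _ _ h => h i
  comp := fun _ _ _ _ hf hg _ _ h => hf fun j => hg j h

/-- the maximum of the functions `f i`, `a ≤ i ≤ b`, or the minimum of the functions `f i`,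
`b ≤ i ≤ a` -/
noncomputable def mm {X : Type} (f : ℤ → X → ℚ) (a b : ℤ) (x : X) : ℚ :=
  if h : a ≤ b then (Finset.Icc a b).sup' (Finset.nonempty_Icc.2 h) fun i => f i x
  else (Finset.Icc b a).inf' (Finset.nonempty_Icc.2 (le_of_not_ge h)) fun i => f i x

lemma mm_self {X : Type} (f : ℤ → X → ℚ) (a : ℤ) (x : X) : mm f a a x = f a x := by
  simp [mm]

lemma mm_mono {X : Type} [Preorder X] {f : ℤ → X → ℚ} (hf : ∀ i, Monotone (f i)) {a a' b b' : ℤ}
    {x x' : X} (ha : a' ≤ a) (hb : b ≤ b') (hx : x ≤ x') : mm f a b x ≤ mm f a' b' x' := by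
  unfold mm
  by_cases h : a ≤ b
  · rw [dif_pos h, dif_pos (by omega)]
    refine Finset.sup'_le _ _ fun i hi => ?_
    rw [Finset.mem_Icc] at hi
    exact (hf i hx).trans (Finset.le_sup' (fun i => f i x') (Finset.mem_Icc.2 ⟨by omega, by omega⟩))
  · rw [dif_neg h]
    by_cases h' : a' ≤ b'
    · rw [dif_pos h']
      have h1 : f (max b a') x ≤ f (max b a') x' := hf _ hx
      exact ((Finset.inf'_le (fun i => f i x) (Finset.mem_Icc.2 ⟨by omega, by omega⟩)).trans
        h1).trans (Finset.le_sup' (fun i => f i x') (Finset.mem_Icc.2 ⟨by omega, by omega⟩))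
    · rw [dif_neg h']
      refine Finset.le_inf' _ _ fun i hi => ?_
      rw [Finset.mem_Icc] at hi
      exact (Finset.inf'_le (fun i => f i x) (Finset.mem_Icc.2 ⟨by omega, by omega⟩)).trans
        (hf i hx)

/-- The polymorphism clone of `(ℚ, ≤)` has the Bergman property. -/
theorem bergman_order : Bergman OrdPol := by
  refine bergman_of ordPol_isClone fun k f hf => ?_
  let F : (Fin (k + 2 + 1) → ℚ) → ℚ := fun z =>
    mm (fun (i : ℤ) (x : Fin (k + 1) → ℚ) => f i.toNat x) ⌈- z 1⌉ ⌊z 0⌋ fun j => z j.succ.succ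
  have hF : F ∈ OrdPol (k + 2) := by
    intro z z' hz
    refine mm_mono (fun i => hf _) ?_ ?_ fun j => hz _
    · exact Int.ceil_mono (neg_le_neg (hz 1))
    · exact Int.floor_mono (hz 0)
  refine ⟨[⟨k + 2, F⟩, ⟨0, un fun _ => 0⟩, ⟨0, un fun x => x + 1⟩, ⟨0, un fun x => x - 1⟩], ?_,
    fun i => ?_⟩
  · intro t ht
    simp only [List.mem_cons, List.not_mem_nil, or_false] at ht
    rcases ht with rfl | rfl | rfl | rfl
    · exact hF
    · exact fun _ _ _ => le_rfl
    · exact fun x y h => add_le_add (h 0) le_rfl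
    · exact fun x y h => sub_le_sub_right (h 0) 1
  · set T : List (Σ n : ℕ, (Fin (n + 1) → ℚ) → ℚ) :=
      [⟨k + 2, F⟩, ⟨0, un fun _ => 0⟩, ⟨0, un fun x => x + 1⟩, ⟨0, un fun x => x - 1⟩] with hT
    have h0 : (fun _ : Fin (k + 1) → ℚ => (0 : ℚ)) ∈ depth (ofList T) k 1 :=
      depth_un (g := fun _ => (0 : ℚ)) (by simp [ofList, hT]) (depth_proj (ofList T) k 0 0)
    have h1 : (fun _ : Fin (k + 1) → ℚ => (i : ℚ)) ∈ depth (ofList T) k (i + 2) := by
      have h2 := depth_iter (g := fun x : ℚ => x + 1) (by simp [ofList, hT]) h0 i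
      refine depth_mono _ _ (by omega) (Set.mem_of_eq_of_mem ?_ h2)
      funext x
      have : ∀ n : ℕ, (fun x : ℚ => x + 1)^[n] 0 = n := by
        intro n
        induction n with
        | zero => simp
        | succ n ih =>
          rw [Function.iterate_succ_apply', ih]
          push_cast
          ring
      exact (this i).symm
    have h1' : (fun _ : Fin (k + 1) → ℚ => -(i : ℚ)) ∈ depth (ofList T) k (i + 2) := by
      have h2 := depth_iter (g := fun x : ℚ => x - 1) (by simp [ofList, hT]) h0 i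
      refine depth_mono _ _ (by omega) (Set.mem_of_eq_of_mem ?_ h2)
      funext x
      have : ∀ n : ℕ, (fun x : ℚ => x - 1)^[n] 0 = -n := by
        intro n
        induction n with
        | zero => simp
        | succ n ih =>
          rw [Function.iterate_succ_apply', ih]
          push_cast
          ring
      exact (this i).symm
    refine Or.inl ⟨k + 2, F,
      Fin.cases (fun _ => (i : ℚ)) (Fin.cases (fun _ => -(i : ℚ)) fun j x => x j),
      by simp [ofList, hT], ?_, ?_⟩
    · intro j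
      refine Fin.cases h1 (fun j => ?_) j
      refine Fin.cases h1' (fun j => ?_) j
      exact depth_proj _ _ _ j
    · funext x
      change f i x = mm (fun (i : ℤ) (x : Fin (k + 1) → ℚ) => f i.toNat x) ⌈- -(i : ℚ)⌉ ⌊(i : ℚ)⌋ _
      have e1 : ⌈- -(i : ℚ)⌉ = (i : ℤ) := by simp
      have e2 : ⌊(i : ℚ)⌋ = (i : ℤ) := by simp
      rw [e1, e2, mm_self]
      rfl

end X225.Ur
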