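import Mathlib

/-!
# Clones, term depth, the Bergman property and cofinality
-/

set_option autoImplicit false

namespace X225.Ur

variable {M : Type}

/-- A family of sets of finitary operations on `M`: `F n` consists of the operations of arity `n + 1`
in the family. -/
abbrev OpFam (M : Type) : Type := ∀ n : ℕ, Set ((Fin (n + 1) → M) → M)

/-- `F` is a clone: it contains all projections and is closed under composition. -/
structure IsClone (F : OpFam M) : Prop where
  proj : ∀ (n : ℕ) (i : Fin (n + 1)), (fun x : Fin (n + 1) → M => x i) ∈ F n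
  comp : ∀ (n m : ℕ) (f : (Fin (n + 1) → M) → M) (g : Fin (n + 1) → (Fin (m + 1) → M) → M),
    f ∈ F n → (∀ j, g j ∈ F m) → (fun x => f (fun j => g j x)) ∈ F m

/-- `H` generates `F`: it is contained in `F` and every clone containing `H` contains `F` (for a clone `F`
this says that `F` is the smallest clone containing `H`). -/
def Generates (H F : OpFam M) : Prop :=
  (∀ n, H n ⊆ F n) ∧ ∀ C : OpFam M, IsClone C → (∀ n, H n ⊆ C n) → ∀ n, F n ⊆ C n

/-- `depth U k i` is the set of the operations of arity `k + 1` given by terms over `U` of depth at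
most `i`: depth `0` gives the projections, and depth `i + 1` adds the operations `f ∘ ⟨g₁, …, gₙ⟩` with
`f` in `U` and all `gⱼ` of depth `i`. -/
def depth (U : OpFam M) (k : ℕ) : ℕ → Set ((Fin (k + 1) → M) → M)
  | 0 => Set.range fun (i : Fin (k + 1)) (x : Fin (k + 1) → M) => x i
  | i + 1 => {h | ∃ (n : ℕ) (f : (Fin (n + 1) → M) → M) (g : Fin (n + 1) → (Fin (k + 1) → M) → M),
      f ∈ U n ∧ (∀ j, g j ∈ depth U k i) ∧ h = fun x => f (fun j => g j x)} ∪ depth U k i

/-- The Bergman property of a clone: for every generating set `H` and every arity there is a bound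
for the depth of the terms over `H` needed to obtain all operations of this arity. -/
def Bergman (F : OpFam M) : Prop :=
  ∀ H : OpFam M, Generates H F → ∀ k : ℕ, ∃ n : ℕ, depth H k n = F k

lemma depth_mono_succ (U : OpFam M) (k i : ℕ) : depth U k i ⊆ depth U k (i + 1) := by
  intro h hh
  exact Or.inr hh

lemma depth_mono (U : OpFam M) (k : ℕ) {i j : ℕ} (hij : i ≤ j) : depth U k i ⊆ depth U k j := by
  induction hij with
  | refl => exact subset_rfl
  | step _ ih => exact ih.trans (depth_mono_succ U k _)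

lemma depth_proj (U : OpFam M) (k i : ℕ) (j : Fin (k + 1)) :
    (fun x : Fin (k + 1) → M => x j) ∈ depth U k i :=
  depth_mono U k (Nat.zero_le i) ⟨j, rfl⟩

lemma depth_comp (U : OpFam M) {k m i l : ℕ} {f : (Fin (k + 1) → M) → M} (hf : f ∈ depth U k i)
    {g : Fin (k + 1) → (Fin (m + 1) → M) → M} (hg : ∀ j, g j ∈ depth U m l) :
    (fun x => f (fun j => g j x)) ∈ depth U m (i + l) := by
  induction i generalizing f with
  | zero =>
    obtain ⟨j, rfl⟩ := hf
    rw [Nat.zero_add]
    exact hg j
  | succ i ih =>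
    rcases hf with ⟨n, f', g', hf', hg', rfl⟩ | hf
    · rw [Nat.succ_add]
      exact Or.inl ⟨n, f', fun a x => g' a (fun j => g j x), hf', fun a => ih (hg' a), rfl⟩
    · rw [Nat.succ_add]
      exact Or.inr (ih hf)

lemma depth_base (U : OpFam M) {n : ℕ} {f : (Fin (n + 1) → M) → M} (hf : f ∈ U n) :
    f ∈ depth U n 1 :=
  Or.inl ⟨n, f, fun j x => x j, hf, fun j => depth_proj U n 0 j, rfl⟩

/-- the operations given by terms over `U` -/
def gen (U : OpFam M) : OpFam M := fun k => ⋃ i, depth U k i

lemma gen_isClone (U : OpFam M) : IsClone (gen U) where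
  proj := fun n i => Set.mem_iUnion.2 ⟨0, depth_proj U n 0 i⟩
  comp := by
    intro n m f g hf hg
    obtain ⟨i, hi⟩ := Set.mem_iUnion.1 hf
    choose l hl using fun j => Set.mem_iUnion.1 (hg j)
    refine Set.mem_iUnion.2 ⟨i + Finset.univ.sup l, depth_comp U hi fun j => ?_⟩
    exact depth_mono U m (Finset.le_sup (f := l) (Finset.mem_univ j)) (hl j)

lemma subset_gen (U : OpFam M) (n : ℕ) : U n ⊆ gen U n := fun _ hf =>
  Set.mem_iUnion.2 ⟨1, depth_base U hf⟩

lemma depth_subset {U F : OpFam M} (hF : IsClone F) (hU : ∀ n, U n ⊆ F n) (k i : ℕ) :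
    depth U k i ⊆ F k := by
  induction i with
  | zero =>
    rintro _ ⟨j, rfl⟩
    exact hF.proj k j
  | succ i ih =>
    rintro h (⟨n, f, g, hf, hg, rfl⟩ | hh)
    · exact hF.comp n k f g (hU n hf) fun j => ih (hg j)
    · exact ih hh

/-- a finite family of operations (of various arities) as a family of sets -/
def ofList (T : List (Σ n : ℕ, (Fin (n + 1) → M) → M)) : OpFam M := fun n => {f | ⟨n, f⟩ ∈ T}

/-- operations of bounded depth over operations of bounded depth -/
lemma depth_trans {U T : OpFam M} {D : ℕ} (h : ∀ n, T n ⊆ depth U n D) (k i : ℕ) :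
    depth T k i ⊆ depth U k (i * D) := by
  induction i with
  | zero =>
    intro f hf
    rw [Nat.zero_mul]
    exact hf
  | succ i ih =>
    rintro f (⟨n, f, g, hf, hg, rfl⟩ | hh)
    · have h1 := depth_comp U (h n hf) fun j => ih (hg j)
      rwa [show D + i * D = (i + 1) * D by ring] at h1
    · exact depth_mono U k (by nlinarith [Nat.zero_le D]) (ih hh)

/-- A criterion for the Bergman property. -/
theorem bergman_of {F : OpFam M} (hF : IsClone F)
    (h : ∀ (k : ℕ) (f : ℕ → (Fin (k + 1) → M) → M), (∀ i, f i ∈ F k) →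
      ∃ T : List (Σ n : ℕ, (Fin (n + 1) → M) → M), (∀ t ∈ T, t.2 ∈ F t.1) ∧
        ∀ i, f i ∈ depth (ofList T) k (i + 3)) : Bergman F := by
  intro H hH k
  by_contra hcon
  have hne : ∀ n, ∃ f ∈ F k, f ∉ depth H k n := by
    intro n
    by_contra h1
    push Not at h1
    exact hcon ⟨n, Set.Subset.antisymm (depth_subset hF hH.1 k n) h1⟩
  choose f hf hf' using fun n => hne ((n + 3) * n)
  obtain ⟨T, hT, hfT⟩ := h k f hf
  have hgen : ∀ t ∈ T, ∃ D, t.2 ∈ depth H t.1 D := fun t ht =>
    Set.mem_iUnion.1 (hH.2 (gen H) (gen_isClone H) (subset_gen H) t.1 (hT t ht))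
  obtain ⟨D, hD⟩ : ∃ D, ∀ t ∈ T, t.2 ∈ depth H t.1 D := by
    clear hfT hT
    induction T with
    | nil => exact ⟨0, by simp⟩
    | cons t T ih =>
      obtain ⟨D, hD⟩ := ih fun s hs => hgen s (List.mem_cons_of_mem _ hs)
      obtain ⟨D', hD'⟩ := hgen t List.mem_cons_self
      refine ⟨max D D', fun s hs => ?_⟩
      rcases List.mem_cons.1 hs with rfl | hs
      · exact depth_mono H _ (le_max_right _ _) hD'
      · exact depth_mono H _ (le_max_left _ _) (hD s hs)
  have h2 : ∀ n, ofList T n ⊆ depth H n D := fun n g hg => hD ⟨n, g⟩ hg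
  exact hf' D (depth_trans h2 k (D + 3) (hfT D))

/-- `F` is not the union of an increasing sequence of proper subclones, and it is not finitely
generated: the cofinality of `F` is uncountable. -/
def UncountableCofinality (F : OpFam M) : Prop :=
  (¬ ∃ T : List (Σ n : ℕ, (Fin (n + 1) → M) → M), Generates (ofList T) F) ∧
  ¬ ∃ C : ℕ → OpFam M, (∀ i, IsClone (C i)) ∧ (∀ i j, i ≤ j → ∀ n, C i n ⊆ C j n) ∧
    (∀ i, C i ≠ F) ∧ ∀ n, ⋃ i, C i n = F n

end X225.Ur
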