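import Mathlib

/-!
# Rational metric spaces: extension of non-expansive maps, free embeddings
-/

set_option autoImplicit false

namespace X225.Ur

/-- A metric with rational values on `M`. -/
structure RMet (M : Type) where
  d : M → M → ℚ
  eq_iff : ∀ x y, d x y = 0 ↔ x = y
  symm : ∀ x y, d x y = d y x
  tri : ∀ x y z, d x z ≤ d x y + d y z

variable {M X : Type}

lemma RMet.self (m : RMet M) (x : M) : m.d x x = 0 := (m.eq_iff x x).2 rfl

lemma RMet.nonneg (m : RMet M) (x y : M) : 0 ≤ m.d x y := by
  have h := m.tri x y x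
  rw [m.self, m.symm y x] at h
  linarith

/-- The cap functions we need are `t ↦ t` and `t ↦ min t 1`. -/
structure IsCap (κ : ℚ → ℚ) : Prop where
  mono : Monotone κ
  le : ∀ t, κ t ≤ t
  idem : ∀ t, κ (κ t) = κ t
  sub : ∀ s t, 0 ≤ s → 0 ≤ t → κ (s + t) ≤ κ s + κ t
  add : ∀ s t, 0 ≤ s → 0 ≤ t → κ (s + t) ≤ κ (κ s + t)
  pos : ∀ t, 0 < t → 0 < κ t
  zero : κ 0 = 0

lemma isCap_id : IsCap (fun t => t) where
  mono := fun _ _ h => h
  le := fun _ => le_rfl
  idem := fun _ => rfl
  sub := fun _ _ _ _ => le_rfl
  add := fun _ _ _ _ => le_rfl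
  pos := fun _ h => h
  zero := rfl

lemma isCap_min : IsCap (fun t => min t 1) where
  mono := fun _ _ h => min_le_min_right _ h
  le := fun _ => min_le_left _ _
  idem := fun t => by simp
  sub := fun s t hs ht => by
    change min (s + t) 1 ≤ min s 1 + min t 1
    rcases le_total s 1 with h | h <;> rcases le_total t 1 with h' | h' <;>
      simp only [min_eq_left h, min_eq_right h, min_eq_left h', min_eq_right h'] <;>
      first
        | exact min_le_left _ _
        | exact (min_le_right _ _).trans (by linarith)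
  add := fun s t hs ht => by
    change min (s + t) 1 ≤ min (min s 1 + t) 1
    rcases le_total s 1 with h | h
    · rw [min_eq_left h]
    · rw [min_eq_right h]
      rw [min_eq_right (by linarith : (1 : ℚ) ≤ s + t), min_eq_right (by linarith : (1 : ℚ) ≤ 1 + t)]
  pos := fun t ht => lt_min ht one_pos
  zero := by norm_num

lemma IsCap.nonneg {κ : ℚ → ℚ} (h : IsCap κ) {t : ℚ} (ht : 0 ≤ t) : 0 ≤ κ t := by
  have := h.mono ht
  rwa [h.zero] at this

/-- all distances are capped -/
def Capped (κ : ℚ → ℚ) (m : RMet M) : Prop := ∀ x y, κ (m.d x y) = m.d x y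

/-- `M` is homogeneous and universal for the finite rational metric spaces with capped distances. -/
structure IsUr (κ : ℚ → ℚ) (m : RMet M) : Prop where
  countable : Countable M
  capped : Capped κ m
  universal : ∀ (X : Type) [Finite X] (e : RMet X), Capped κ e →
    ∃ g : X → M, ∀ x y, m.d (g x) (g y) = e.d x y
  homogeneous : ∀ (A : Finset M) (f : M → M), (∀ x ∈ A, ∀ y ∈ A, m.d (f x) (f y) = m.d x y) →
    ∃ α : M ≃ M, (∀ x y, m.d (α x) (α y) = m.d x y) ∧ ∀ x ∈ A, α x = f x

/-- a map that does not increase distances -/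
def NE (e : RMet X) (m : RMet M) (f : X → M) : Prop := ∀ x y, m.d (f x) (f y) ≤ e.d x y

section ope

variable {κ : ℚ → ℚ} {m : RMet M}

/-- one point extensions -/
theorem IsUr.ope (hκ : IsCap κ) (h : IsUr κ m) (B : Finset M) (γ : M → ℚ)
    (hc : ∀ b ∈ B, κ (γ b) = γ b) (h1 : ∀ b ∈ B, ∀ b' ∈ B, γ b ≤ γ b' + m.d b b')
    (h2 : ∀ b ∈ B, ∀ b' ∈ B, m.d b b' ≤ γ b + γ b') : ∃ v, ∀ b ∈ B, m.d v b = γ b := by
  classical
  by_cases h0 : ∃ b ∈ B, γ b = 0
  · obtain ⟨v, hv, hv0⟩ := h0
    refine ⟨v, fun b hb => le_antisymm ?_ ?_⟩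
    · have := h2 v hv b hb
      rwa [hv0, zero_add] at this
    · have := h1 b hb v hv
      rwa [hv0, zero_add, m.symm] at this
  · push Not at h0
    have hpos : ∀ b ∈ B, 0 < γ b := by
      intro b hb
      have h3 := h2 b hb b hb
      rw [m.self] at h3
      exact lt_of_le_of_ne (by linarith) (Ne.symm (h0 b hb))
    let dd : Option {b // b ∈ B} → Option {b // b ∈ B} → ℚ := fun x y =>
      match x, y with
      | none, none => 0
      | none, some b => γ b
      | some b, none => γ b
      | some b, some b' => m.d b b'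
    let e : RMet (Option {b // b ∈ B}) :=
      { d := dd
        eq_iff := by
          rintro (_ | ⟨x, hx⟩) (_ | ⟨y, hy⟩)
          · simp [dd]
          · simp [dd, (hpos y hy).ne']
          · simp [dd, (hpos x hx).ne']
          · simp [dd, m.eq_iff]
        symm := by
          rintro (_ | ⟨x, hx⟩) (_ | ⟨y, hy⟩)
          · rfl
          · rfl
          · rfl
          · exact m.symm _ _
        tri := by
          rintro (_ | ⟨x, hx⟩) (_ | ⟨y, hy⟩) (_ | ⟨z, hz⟩)
          · simp [dd]
          · change γ z ≤ 0 + γ z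
            linarith
          · change (0 : ℚ) ≤ γ y + γ y
            linarith [hpos y hy]
          · change γ z ≤ γ y + m.d y z
            have := h1 z hz y hy
            rwa [m.symm] at this
          · change γ x ≤ γ x + 0
            linarith
          · exact h2 x hx z hz
          · change γ x ≤ m.d x y + γ y
            linarith [h1 x hx y hy]
          · exact m.tri _ _ _ }
    have he : Capped κ e := by
      rintro (_ | ⟨x, hx⟩) (_ | ⟨y, hy⟩)
      · exact hκ.zero
      · exact hc y hy
      · exact hc x hx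
      · exact h.capped _ _
    obtain ⟨g, hg⟩ := h.universal _ e he
    obtain ⟨α, hα, hα'⟩ := h.homogeneous B
      (fun x => if hx : x ∈ B then g (some ⟨x, hx⟩) else x) (by
        intro x hx y hy
        simp only [dif_pos hx, dif_pos hy]
        exact hg _ _)
    refine ⟨α.symm (g none), fun b hb => ?_⟩
    rw [← hα, α.apply_symm_apply, hα' b hb, dif_pos hb, hg]

/-- intersections of finitely many balls -/
theorem IsUr.balls (hκ : IsCap κ) (h : IsUr κ m) {ι : Type} (I : Finset ι) (c : ι → M) (r : ι → ℚ)
    (hr : ∀ i ∈ I, ∀ j ∈ I, m.d (c i) (c j) ≤ r i + r j) : ∃ v, ∀ i ∈ I, m.d v (c i) ≤ r i := by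
  classical
  by_cases hI : I.Nonempty
  swap
  · rw [Finset.not_nonempty_iff_eq_empty] at hI
    subst hI
    obtain ⟨v, -⟩ := h.ope hκ ∅ (fun _ => 0) (by simp) (by simp) (by simp)
    exact ⟨v, by simp⟩
  have hr0 : ∀ i ∈ I, 0 ≤ r i := by
    intro i hi
    have := hr i hi i hi
    rw [m.self] at this
    linarith
  let μ : M → ℚ := fun b => I.inf' hI fun i => r i + m.d (c i) b
  have hμ0 : ∀ b, 0 ≤ μ b := fun b => by
    refine Finset.le_inf' _ _ fun i hi => ?_
    exact add_nonneg (hr0 i hi) (m.nonneg _ _)
  have hat : ∀ b, ∃ i ∈ I, μ b = r i + m.d (c i) b := fun b =>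
    Finset.exists_mem_eq_inf' hI _
  have hle : ∀ b, ∀ i ∈ I, μ b ≤ r i + m.d (c i) b := fun b i hi => Finset.inf'_le _ hi
  obtain ⟨v, hv⟩ := h.ope hκ (I.image c) (fun b => κ (μ b)) (fun b _ => hκ.idem _)
    (by
      intro b _ b' _
      obtain ⟨i, hi, hib⟩ := hat b'
      have h1 : μ b ≤ μ b' + m.d b b' := by
        rw [hib]
        have h2 := hle b i hi
        have h3 := m.tri (c i) b' b
        rw [m.symm b' b] at h3
        linarith
      calc κ (μ b) ≤ κ (μ b' + m.d b b') := hκ.mono h1
        _ ≤ κ (μ b') + κ (m.d b b') := hκ.sub _ _ (hμ0 _) (m.nonneg _ _)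
        _ = κ (μ b') + m.d b b' := by rw [h.capped])
    (by
      intro b _ b' _
      obtain ⟨i, hi, hib⟩ := hat b
      obtain ⟨j, hj, hjb⟩ := hat b'
      have h1 : m.d b b' ≤ μ b + μ b' := by
        rw [hib, hjb]
        have h2 := m.tri b (c i) b'
        have h3 := m.tri (c i) (c j) b'
        have h4 := hr i hi j hj
        rw [m.symm b (c i)] at h2
        linarith
      calc m.d b b' = κ (m.d b b') := (h.capped _ _).symm
        _ ≤ κ (μ b + μ b') := hκ.mono h1
        _ ≤ κ (μ b) + κ (μ b') := hκ.sub _ _ (hμ0 _) (hμ0 _))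
  refine ⟨v, fun i hi => ?_⟩
  rw [hv _ (Finset.mem_image_of_mem c hi)]
  refine (hκ.le _).trans ?_
  have := hle (c i) i hi
  rwa [m.self, add_zero] at this

end ope

/-- Recursive choice of a sequence. -/
theorem exists_seq {M : Type} [Nonempty M] (Q : ℕ → (ℕ → M) → Prop)
    (loc : ∀ n (u u' : ℕ → M), (∀ k ≤ n, u k = u' k) → Q n u → Q n u')
    (step : ∀ n (u : ℕ → M), (∀ k < n, Q k u) → ∃ v, Q n (Function.update u n v)) :
    ∃ u : ℕ → M, ∀ n, Q n u := by
  classical
  obtain ⟨a⟩ := (inferInstance : Nonempty M)
  have hex : ∀ n (u : ℕ → M), ∃ v, (∀ k < n, Q k u) → Q n (Function.update u n v) := by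
    intro n u
    by_cases h : ∀ k < n, Q k u
    · obtain ⟨v, hv⟩ := step n u h
      exact ⟨v, fun _ => hv⟩
    · exact ⟨a, fun h' => absurd h' h⟩
  choose V hV using hex
  let U : ℕ → ℕ → M := fun n => Nat.rec (fun _ => a) (fun n u => Function.update u n (V n u)) n
  have hU : ∀ n, U (n + 1) = Function.update (U n) n (V n (U n)) := fun n => rfl
  have hst : ∀ k n, k < n → U n k = U (k + 1) k := by
    intro k n hkn
    induction hkn with
    | refl => rfl
    | step h ih =>
      rw [hU, Function.update_of_ne (by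
        have := Nat.lt_of_succ_le h
        omega), ih]
  have hQ : ∀ n, ∀ k < n, Q k (U n) := by
    intro n
    induction n with
    | zero => intro k hk; exact absurd hk (by omega)
    | succ n ih =>
      intro k hk
      rcases Nat.lt_succ_iff_lt_or_eq.1 hk with hk | rfl
      · refine loc k (U n) _ (fun l hl => ?_) (ih k hk)
        rw [hU, Function.update_of_ne (by omega)]
      · exact hV _ _ ih
  refine ⟨fun n => U (n + 1) n, fun n => ?_⟩
  refine loc n (U (n + 1)) _ (fun k hk => ?_) (hQ (n + 1) n (Nat.lt_succ_self n))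
  exact hst k (n + 1) (by omega)

/-- The subset `D` of `X` is finitely supported: the distances of every point to the points of `D` are
determined by the distances to finitely many points of `D`. -/
def FinSupp (κ : ℚ → ℚ) (e : RMet X) (D : Set X) : Prop :=
  ∀ p : X, ∃ A : Finset X, (↑A ⊆ D) ∧ ∀ y ∈ D, ∃ a ∈ A, κ (e.d p a + e.d a y) ≤ e.d p y

section ext

variable {κ : ℚ → ℚ} {m : RMet M} {e : RMet X}

/-- Extension of non-expansive maps from finitely supported subsets. -/
theorem extend (hκ : IsCap κ) (h : IsUr κ m) [Countable X] [Nonempty X] {D : Set X}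
    (hD : FinSupp κ e D) (f : X → M) (hf : ∀ x ∈ D, ∀ y ∈ D, m.d (f x) (f y) ≤ e.d x y) :
    ∃ g : X → M, NE e m g ∧ ∀ x ∈ D, g x = f x := by
  classical
  obtain ⟨x, hx⟩ := exists_surjective_nat X
  have hne : Nonempty M := by
    obtain ⟨v, -⟩ := h.balls hκ (∅ : Finset ℕ) (fun _ => f (x 0)) (fun _ => 0) (by simp)
    exact ⟨v⟩
  obtain ⟨u, hu⟩ := exists_seq (M := M)
    (fun n u => (∀ y ∈ D, m.d (u n) (f y) ≤ e.d (x n) y) ∧
      ∀ k < n, m.d (u n) (u k) ≤ e.d (x n) (x k))
    (by
      rintro n u u' huu ⟨h1, h2⟩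
      refine ⟨fun y hy => ?_, fun k hk => ?_⟩
      · rw [← huu n le_rfl]
        exact h1 y hy
      · rw [← huu n le_rfl, ← huu k hk.le]
        exact h2 k hk)
    (by
      intro n u hu
      obtain ⟨A, hAD, hA⟩ := hD (x n)
      -- centres: the images of the points of `A` and the earlier values
      obtain ⟨v, hv⟩ := h.balls hκ
        ((A.image Sum.inl ∪ (Finset.range n).image Sum.inr : Finset (X ⊕ ℕ)))
        (Sum.elim f u) (Sum.elim (fun a => e.d (x n) a) fun k => e.d (x n) (x k))
        (by
          intro i hi j hj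
          simp only [Finset.mem_union, Finset.mem_image, Finset.mem_range] at hi hj
          rcases hi with ⟨a, ha, rfl⟩ | ⟨k, hk, rfl⟩ <;> rcases hj with ⟨b, hb, rfl⟩ | ⟨l, hl, rfl⟩
          · simp only [Sum.elim_inl]
            refine (hf a (hAD ha) b (hAD hb)).trans ?_
            have := e.tri a (x n) b
            rwa [e.symm a (x n)] at this
          · simp only [Sum.elim_inl, Sum.elim_inr]
            rw [m.symm]
            refine ((hu l hl).1 a (hAD ha)).trans ?_
            have := e.tri (x l) (x n) a
            rw [e.symm (x l) (x n)] at this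
            linarith
          · simp only [Sum.elim_inl, Sum.elim_inr]
            refine ((hu k hk).1 b (hAD hb)).trans ?_
            have := e.tri (x k) (x n) b
            rwa [e.symm (x k) (x n)] at this
          · simp only [Sum.elim_inr]
            have htri := e.tri (x k) (x n) (x l)
            rw [e.symm (x k) (x n)] at htri
            rcases lt_trichotomy k l with hkl | rfl | hkl
            · rw [m.symm]
              refine ((hu l hl).2 k hkl).trans ?_
              rw [e.symm]
              exact htri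
            · rw [m.self]
              have := e.nonneg (x n) (x k)
              linarith
            · exact ((hu k hk).2 l hkl).trans htri)
      refine ⟨v, fun y hy => ?_, fun k hk => ?_⟩
      · rw [Function.update_self]
        obtain ⟨a, ha, hay⟩ := hA y hy
        have h1 : m.d v (f a) ≤ e.d (x n) a :=
          hv (Sum.inl a) (Finset.mem_union_left _ (Finset.mem_image_of_mem _ ha))
        have h2 : m.d v (f y) ≤ e.d (x n) a + e.d a y :=
          (m.tri _ (f a) _).trans (add_le_add h1 (hf a (hAD ha) y hy))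
        calc m.d v (f y) = κ (m.d v (f y)) := (h.capped _ _).symm
          _ ≤ κ (e.d (x n) a + e.d a y) := hκ.mono h2
          _ ≤ e.d (x n) y := hay
      · rw [Function.update_self, Function.update_of_ne hk.ne]
        exact hv (Sum.inr k) (Finset.mem_union_right _
          (Finset.mem_image_of_mem _ (Finset.mem_range.2 hk))))
  have hall : ∀ n k, m.d (u n) (u k) ≤ e.d (x n) (x k) := by
    intro n k
    rcases lt_trichotomy n k with hnk | rfl | hnk
    · rw [m.symm, e.symm]
      exact (hu k).2 n hnk
    · rw [m.self, e.self]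
    · exact (hu n).2 k hnk
  choose N hN using hx
  refine ⟨fun p => u (N p), fun p q => ?_, fun p hp => ?_⟩
  · have := hall (N p) (N q)
    rwa [hN, hN] at this
  · have h1 := (hu (N p)).1 p hp
    rw [hN, e.self] at h1
    exact (m.eq_iff _ _).1 (le_antisymm h1 (m.nonneg _ _))

/-- Free embeddings: every countable rational metric space (with capped distances) has an isometric
embedding with finitely supported image. -/
theorem embed (hκ : IsCap κ) (h : IsUr κ m) [Countable X] [Nonempty X] (hX : Capped κ e) :
    ∃ φ : X → M, (∀ x y, m.d (φ x) (φ y) = e.d x y) ∧ FinSupp κ m (Set.range φ) := by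
  classical
  have hc := h.countable
  have hne : Nonempty M := by
    obtain ⟨v, -⟩ := h.ope hκ ∅ (fun _ => 0) (by simp) (by simp) (by simp)
    exact ⟨v⟩
  obtain ⟨x, hx⟩ := exists_surjective_nat X
  obtain ⟨p, hp⟩ := exists_surjective_nat M
  obtain ⟨u, hu⟩ := exists_seq (M := M)
    (fun n u => (∀ k < n, m.d (u n) (u k) = e.d (x n) (x k)) ∧
      ∀ j < n, ∃ i < n, κ (m.d (p j) (u i) + e.d (x i) (x n)) ≤ m.d (p j) (u n))
    (by
      rintro n u u' huu ⟨h1, h2⟩
      refine ⟨fun k hk => ?_, fun j hj => ?_⟩
      · rw [← huu n le_rfl, ← huu k hk.le]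
        exact h1 k hk
      · obtain ⟨i, hi, h3⟩ := h2 j hj
        refine ⟨i, hi, ?_⟩
        rw [← huu n le_rfl, ← huu i hi.le]
        exact h3)
    (by
      intro n u hu
      rcases Nat.eq_zero_or_pos n with rfl | hn
      · exact ⟨u 0, by simp, by simp⟩
      have hall : ∀ i < n, ∀ k < n, m.d (u i) (u k) = e.d (x i) (x k) := by
        intro i hi k hk
        rcases lt_trichotomy i k with hik | rfl | hik
        · rw [m.symm, e.symm]
          exact (hu k hk).1 i hik
        · rw [m.self, e.self]
        · exact (hu i hi).1 k hik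
      have hR : (Finset.range n).Nonempty := ⟨0, Finset.mem_range.2 hn⟩
      let μ : M → ℚ := fun b => (Finset.range n).inf' hR fun i => m.d b (u i) + e.d (x i) (x n)
      have hμ0 : ∀ b, 0 ≤ μ b := fun b => by
        refine Finset.le_inf' _ _ fun i hi => ?_
        exact add_nonneg (m.nonneg _ _) (e.nonneg _ _)
      have hat : ∀ b, ∃ i < n, μ b = m.d b (u i) + e.d (x i) (x n) := fun b => by
        obtain ⟨i, hi, h1⟩ := Finset.exists_mem_eq_inf' hR
          (fun i => m.d b (u i) + e.d (x i) (x n))
        exact ⟨i, Finset.mem_range.1 hi, h1⟩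
      have hle : ∀ b, ∀ i < n, μ b ≤ m.d b (u i) + e.d (x i) (x n) := fun b i hi =>
        Finset.inf'_le _ (Finset.mem_range.2 hi)
      obtain ⟨v, hv⟩ := h.ope hκ ((Finset.range n).image u ∪ (Finset.range n).image p)
        (fun b => κ (μ b)) (fun b _ => hκ.idem _)
        (by
          intro b _ b' _
          obtain ⟨i, hi, hib⟩ := hat b'
          have h1 : μ b ≤ μ b' + m.d b b' := by
            rw [hib]
            have h2 := hle b i hi
            have h3 := m.tri b b' (u i)
            linarith
          calc κ (μ b) ≤ κ (μ b' + m.d b b') := hκ.mono h1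
            _ ≤ κ (μ b') + κ (m.d b b') := hκ.sub _ _ (hμ0 _) (m.nonneg _ _)
            _ = κ (μ b') + m.d b b' := by rw [h.capped])
        (by
          intro b _ b' _
          obtain ⟨i, hi, hib⟩ := hat b
          obtain ⟨j, hj, hjb⟩ := hat b'
          have h1 : m.d b b' ≤ μ b + μ b' := by
            rw [hib, hjb]
            have h2 := m.tri b (u i) b'
            have h3 := m.tri (u i) (u j) b'
            have h4 := hall i hi j hj
            have h5 := e.tri (x i) (x n) (x j)
            rw [e.symm (x n) (x j)] at h5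
            rw [m.symm (u j) b'] at h3
            linarith
          calc m.d b b' = κ (m.d b b') := (h.capped _ _).symm
            _ ≤ κ (μ b + μ b') := hκ.mono h1
            _ ≤ κ (μ b) + κ (μ b') := hκ.sub _ _ (hμ0 _) (hμ0 _))
      refine ⟨v, fun k hk => ?_, fun j hj => ?_⟩
      · rw [Function.update_self, Function.update_of_ne hk.ne]
        rw [hv (u k) (Finset.mem_union_left _ (Finset.mem_image_of_mem _ (Finset.mem_range.2 hk)))]
        have h1 : μ (u k) = e.d (x n) (x k) := by
          apply le_antisymm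
          · have := hle (u k) k hk
            rw [m.self, zero_add, e.symm] at this
            exact this
          · obtain ⟨i, hi, hib⟩ := hat (u k)
            rw [hib, hall k hk i hi]
            have := e.tri (x k) (x i) (x n)
            rw [e.symm (x k) (x n)] at this
            exact this
        change κ (μ (u k)) = _
        rw [h1, hX]
      · obtain ⟨i, hi, hib⟩ := hat (p j)
        refine ⟨i, hi, ?_⟩
        rw [Function.update_self, Function.update_of_ne hi.ne, m.symm (p j) v,
          hv (p j) (Finset.mem_union_right _ (Finset.mem_image_of_mem _ (Finset.mem_range.2 hj))),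
          ← hib])
  have hall : ∀ i k, m.d (u i) (u k) = e.d (x i) (x k) := by
    intro i k
    rcases lt_trichotomy i k with hik | rfl | hik
    · rw [m.symm, e.symm]
      exact (hu k).1 i hik
    · rw [m.self, e.self]
    · exact (hu i).1 k hik
  have hsup : ∀ j n, ∃ i ≤ j, κ (m.d (p j) (u i) + e.d (x i) (x n)) ≤ m.d (p j) (u n) := by
    intro j n
    induction n using Nat.strong_induction_on with
    | _ n ih =>
      by_cases hnj : n ≤ j
      · refine ⟨n, hnj, ?_⟩
        rw [e.self, add_zero]
        exact hκ.le _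
      · obtain ⟨i', hi', h1⟩ := (hu n).2 j (by omega)
        obtain ⟨i, hi, h2⟩ := ih i' hi'
        refine ⟨i, hi, le_trans ?_ h1⟩
        have hn1 := m.nonneg (p j) (u i)
        have hn2 := e.nonneg (x i) (x i')
        have hn3 := e.nonneg (x i') (x n)
        calc κ (m.d (p j) (u i) + e.d (x i) (x n))
            ≤ κ ((m.d (p j) (u i) + e.d (x i) (x i')) + e.d (x i') (x n)) := by
              refine hκ.mono ?_
              linarith [e.tri (x i) (x i') (x n)]
          _ ≤ κ (κ (m.d (p j) (u i) + e.d (x i) (x i')) + e.d (x i') (x n)) :=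
              hκ.add _ _ (by linarith) hn3
          _ ≤ κ (m.d (p j) (u i') + e.d (x i') (x n)) := by
              refine hκ.mono ?_
              linarith
  choose N hN using hx
  have hφ : ∀ n, u (N (x n)) = u n := by
    intro n
    rw [← m.eq_iff, hall, hN, e.self]
  refine ⟨fun a => u (N a), fun a b => by rw [hall, hN, hN], fun q => ?_⟩
  obtain ⟨j, rfl⟩ := hp q
  refine ⟨(Finset.range (j + 1)).image u, ?_, ?_⟩
  · intro y hy
    simp only [Finset.coe_image, Finset.coe_range, Set.mem_image, Set.mem_Iio] at hy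
    obtain ⟨i, -, rfl⟩ := hy
    exact ⟨x i, hφ i⟩
  · rintro _ ⟨a, rfl⟩
    obtain ⟨i, hi, h1⟩ := hsup j (N a)
    refine ⟨u i, Finset.mem_image_of_mem _ (Finset.mem_range.2 (by omega)), ?_⟩
    rw [hall i (N a)]
    exact h1

end ext

end X225.Ur
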