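import Pool.Agent.X225.Ur.Clone
import Pool.Agent.X225.Ur.Met

/-!
# Polymorphisms of the rational Urysohn space and of the rational Urysohn sphere
-/

set_option autoImplicit false

namespace X225.Ur

variable {M : Type} {κ : ℚ → ℚ} {m : RMet M}

/-- The polymorphisms of a rational metric space `M`: the operations preserving the binary relations
`d(x, y) ≤ q`, `q` rational. -/
def Pol (m : RMet M) : OpFam M := fun n =>
  {f | ∀ (q : ℚ) (x y : Fin (n + 1) → M), (∀ i, m.d (x i) (y i) ≤ q) → m.d (f x) (f y) ≤ q}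

lemma pol_isClone (m : RMet M) : IsClone (Pol m) where
  proj := fun _ i _ _ _ h => h i
  comp := fun _ _ _ _ hf hg q x y h => hf q _ _ fun j => hg j q x y h

/-- a unary map as an operation -/
def un (g : M → M) : (Fin (0 + 1) → M) → M := fun x => g (x 0)

lemma un_mem {g : M → M} : un g ∈ Pol m 0 ↔ NE m m g := by
  constructor
  · intro h x y
    exact h (m.d x y) (fun _ => x) (fun _ => y) fun _ => le_rfl
  · intro h q x y hxy
    exact (h _ _).trans (hxy 0)

lemma NE.iterate {g : M → M} (h : NE m m g) (n : ℕ) : NE m m g^[n] := by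
  induction n with
  | zero => exact fun x y => le_rfl
  | succ n ih =>
    intro x y
    rw [Function.iterate_succ_apply', Function.iterate_succ_apply']
    exact (h _ _).trans (ih _ _)

/-- the product of two rational metric spaces with the maximum metric -/
def prodMet (m : RMet M) : RMet (M × M) where
  d := fun x y => max (m.d x.1 y.1) (m.d x.2 y.2)
  eq_iff := by
    rintro ⟨x, x'⟩ ⟨y, y'⟩
    simp only [Prod.mk.injEq]
    constructor
    · intro h
      have h1 := m.nonneg x y
      have h2 := m.nonneg x' y'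
      have h3 := le_max_left (m.d x y) (m.d x' y')
      have h4 := le_max_right (m.d x y) (m.d x' y')
      rw [h] at h3 h4
      exact ⟨(m.eq_iff _ _).1 (le_antisymm h3 h1), (m.eq_iff _ _).1 (le_antisymm h4 h2)⟩
    · rintro ⟨rfl, rfl⟩
      simp [m.self]
  symm := fun x y => by rw [m.symm x.1, m.symm x.2]
  tri := fun x y z => by
    have h1 := m.tri x.1 y.1 z.1
    have h2 := m.tri x.2 y.2 z.2
    refine max_le (h1.trans (add_le_add (le_max_left _ _) (le_max_left _ _)))
      (h2.trans (add_le_add (le_max_right _ _) (le_max_right _ _)))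

theorem IsUr.nonempty (hκ : IsCap κ) (h : IsUr κ m) : Nonempty M := by
  obtain ⟨v, -⟩ := h.ope hκ ∅ (fun _ => 0) (by simp) (by simp) (by simp)
  exact ⟨v⟩

/-- pairing: `M × M` is a retract of `M` -/
theorem pairing (hκ : IsCap κ) (h : IsUr κ m) :
    ∃ (p : M × M → M) (l r : M → M), (∀ x y, m.d (p x) (p y) = (prodMet m).d x y) ∧
      NE m m l ∧ NE m m r ∧ (∀ x, l (p x) = x.1) ∧ ∀ x, r (p x) = x.2 := by
  classical
  have hc := h.countable
  have hne := h.nonempty hκ
  have hcap : Capped κ (prodMet m) := by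
    intro x y
    change κ (max _ _) = max _ _
    rcases le_total (m.d x.1 y.1) (m.d x.2 y.2) with h1 | h1
    · rw [max_eq_right h1, h.capped]
    · rw [max_eq_left h1, h.capped]
  obtain ⟨p, hp, hfs⟩ := embed (e := prodMet m) hκ h hcap
  have hinj : Function.Injective p := by
    intro x y hxy
    rw [← (prodMet m).eq_iff, ← hp, hxy, m.self]
  let a : M := Classical.choice hne
  obtain ⟨l, hl, hl'⟩ := extend hκ h (e := m) hfs
    (fun w => if hw : ∃ x, p x = w then hw.choose.1 else a) (by
      rintro _ ⟨x, rfl⟩ _ ⟨y, rfl⟩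
      have h1 : ∀ x, (if hw : ∃ x', p x' = p x then hw.choose.1 else a) = x.1 := by
        intro x
        rw [dif_pos ⟨x, rfl⟩]
        rw [hinj (Exists.choose_spec (⟨x, rfl⟩ : ∃ x', p x' = p x))]
      simp only [h1, hp]
      exact le_max_left _ _)
  obtain ⟨r, hr, hr'⟩ := extend hκ h (e := m) hfs
    (fun w => if hw : ∃ x, p x = w then hw.choose.2 else a) (by
      rintro _ ⟨x, rfl⟩ _ ⟨y, rfl⟩
      have h1 : ∀ x, (if hw : ∃ x', p x' = p x then hw.choose.2 else a) = x.2 := by
        intro x
        rw [dif_pos ⟨x, rfl⟩]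
        rw [hinj (Exists.choose_spec (⟨x, rfl⟩ : ∃ x', p x' = p x))]
      simp only [h1, hp]
      exact le_max_right _ _)
  refine ⟨p, l, r, hp, hl, hr, fun x => ?_, fun x => ?_⟩
  · rw [hl' _ ⟨x, rfl⟩, dif_pos ⟨x, rfl⟩]
    rw [hinj (Exists.choose_spec (⟨x, rfl⟩ : ∃ x', p x' = p x))]
  · rw [hr' _ ⟨x, rfl⟩, dif_pos ⟨x, rfl⟩]
    rw [hinj (Exists.choose_spec (⟨x, rfl⟩ : ∃ x', p x' = p x))]

/-- countably many copies of `M`, attached to the points of a line -/
def lineMet (hκ : IsCap κ) (hm : Capped κ m) (x₀ : M) : RMet (ℕ × M) where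
  d := fun x y => if x.1 = y.1 then m.d x.2 y.2 else
    κ (m.d x.2 x₀ + m.d y.2 x₀ + |(x.1 : ℚ) - y.1|)
  eq_iff := by
    rintro ⟨n, x⟩ ⟨k, y⟩
    simp only [Prod.mk.injEq]
    by_cases h : n = k
    · subst h
      simp [m.eq_iff]
    · simp only [h, if_false, false_and, iff_false]
      have h1 : (0 : ℚ) < |(n : ℚ) - k| := by
        rw [abs_pos, sub_ne_zero]
        exact_mod_cast h
      have h2 := m.nonneg x x₀
      have h3 := m.nonneg y x₀
      exact (hκ.pos _ (by linarith)).ne'
  symm := by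
    rintro ⟨n, x⟩ ⟨k, y⟩
    simp only []
    by_cases h : n = k
    · subst h
      simp [m.symm x y]
    · rw [if_neg h, if_neg (Ne.symm h), abs_sub_comm, add_comm (m.d x x₀)]
  tri := by
    rintro ⟨n, x⟩ ⟨k, y⟩ ⟨l, z⟩
    simp only []
    have hx := m.nonneg x x₀
    have hy := m.nonneg y x₀
    have hz := m.nonneg z x₀
    have a1 := abs_nonneg ((n : ℚ) - k)
    have a2 := abs_nonneg ((k : ℚ) - l)
    have a3 := abs_nonneg ((n : ℚ) - l)
    have htri := abs_sub_le (n : ℚ) k l
    by_cases h1 : n = k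
    · subst h1
      by_cases h2 : n = l
      · subst h2
        simp only [if_true]
        exact m.tri _ _ _
      · simp only [h2, if_false, if_true]
        calc κ (m.d x x₀ + m.d z x₀ + |(n : ℚ) - l|)
            ≤ κ (m.d x y + (m.d y x₀ + m.d z x₀ + |(n : ℚ) - l|)) := by
              refine hκ.mono ?_
              linarith [m.tri x y x₀]
          _ ≤ κ (m.d x y) + κ (m.d y x₀ + m.d z x₀ + |(n : ℚ) - l|) :=
              hκ.sub _ _ (m.nonneg _ _) (by linarith)
          _ = _ := by rw [hm]
    · by_cases h2 : k = l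
      · subst h2
        simp only [h1, if_false, if_true]
        calc κ (m.d x x₀ + m.d z x₀ + |(n : ℚ) - k|)
            ≤ κ ((m.d x x₀ + m.d y x₀ + |(n : ℚ) - k|) + m.d y z) := by
              refine hκ.mono ?_
              have := m.tri z y x₀
              rw [m.symm z y] at this
              linarith
          _ ≤ κ (m.d x x₀ + m.d y x₀ + |(n : ℚ) - k|) + κ (m.d y z) :=
              hκ.sub _ _ (by linarith) (m.nonneg _ _)
          _ = _ := by rw [hm]
      · by_cases h3 : n = l
        · subst h3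
          simp only [h1, h2, if_false, if_true]
          calc m.d x z = κ (m.d x z) := (hm _ _).symm
            _ ≤ κ ((m.d x x₀ + m.d y x₀ + |(n : ℚ) - k|) +
                (m.d y x₀ + m.d z x₀ + |(k : ℚ) - n|)) := by
                refine hκ.mono ?_
                have := m.tri x x₀ z
                rw [m.symm x₀ z] at this
                linarith
            _ ≤ _ := hκ.sub _ _ (by linarith) (by linarith)
        · simp only [h1, h2, h3, if_false]
          refine le_trans (hκ.mono ?_) (hκ.sub _ _ (by linarith) (by linarith))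
          linarith

/-- Distortion: a sequence of non-expansive maps which moves the base point with bounded speed. -/
theorem distort (hκ : IsCap κ) (h : IsUr κ m) (x₀ : M) (G : ℕ → M → M) (hG : ∀ n, NE m m (G n))
    (hG0 : ∀ n k : ℕ, m.d (G n x₀) (G k x₀) ≤ |(n : ℚ) - k|) :
    ∃ g s e : M → M, NE m m g ∧ NE m m s ∧ NE m m e ∧ ∀ n x, G n x = g (s^[n] (e x)) := by
  classical
  have hc := h.countable
  have hne : Nonempty M := ⟨x₀⟩
  let L := lineMet hκ h.capped x₀
  have hcap : Capped κ L := by
    rintro ⟨n, x⟩ ⟨k, y⟩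
    change κ (ite _ _ _) = ite _ _ _
    split_ifs
    · exact h.capped _ _
    · exact hκ.idem _
  obtain ⟨E, hE, hfs⟩ := embed (e := L) hκ h hcap
  have hinj : Function.Injective E := by
    intro x y hxy
    rw [← L.eq_iff, ← hE, hxy, m.self]
  let back : M → ℕ × M := fun w => if hw : ∃ x, E x = w then hw.choose else (0, x₀)
  have hback : ∀ x, back (E x) = x := by
    intro x
    change (if hw : ∃ x', E x' = E x then hw.choose else (0, x₀)) = x
    rw [dif_pos ⟨x, rfl⟩]
    exact hinj (Exists.choose_spec (⟨x, rfl⟩ : ∃ x', E x' = E x))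
  have hL : ∀ (n : ℕ) (x y : M), L.d (n, x) (n, y) = m.d x y := fun n x y => if_pos rfl
  have hL' : ∀ (n k : ℕ) (x y : M), n ≠ k →
      L.d (n, x) (k, y) = κ (m.d x x₀ + m.d y x₀ + |(n : ℚ) - k|) := fun n k x y hnk => if_neg hnk
  obtain ⟨g, hg, hg'⟩ := extend hκ h (e := m) hfs (fun w => G (back w).1 (back w).2) (by
    rintro _ ⟨⟨n, x⟩, rfl⟩ _ ⟨⟨k, y⟩, rfl⟩
    simp only [hback, hE]
    by_cases hnk : n = k
    · subst hnk
      rw [hL]
      exact hG n x y
    · rw [hL' _ _ _ _ hnk, ← h.capped]
      refine hκ.mono ?_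
      have h1 := m.tri (G n x) (G n x₀) (G k y)
      have h2 := m.tri (G n x₀) (G k x₀) (G k y)
      have h3 := hG n x x₀
      have h4 := hG k x₀ y
      rw [m.symm x₀ y] at h4
      have h5 := hG0 n k
      linarith)
  obtain ⟨s, hs, hs'⟩ := extend hκ h (e := m) hfs (fun w => E ((back w).1 + 1, (back w).2)) (by
    rintro _ ⟨⟨n, x⟩, rfl⟩ _ ⟨⟨k, y⟩, rfl⟩
    simp only [hback, hE]
    by_cases hnk : n = k
    · subst hnk
      rw [hL, hL]
    · rw [hL' _ _ _ _ hnk, hL' _ _ _ _ (by omega)]
      refine hκ.mono (le_of_eq ?_)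
      push_cast
      rw [add_sub_add_right_eq_sub])
  have hiter : ∀ n x, s^[n] (E (0, x)) = E (n, x) := by
    intro n x
    induction n with
    | zero => rfl
    | succ n ih =>
      rw [Function.iterate_succ_apply', ih, hs' _ ⟨_, rfl⟩, hback]
  refine ⟨g, s, fun x => E (0, x), hg, hs, fun x y => ?_, fun n x => ?_⟩
  · rw [hE, hL]
  · rw [hiter, hg' _ ⟨_, rfl⟩, hback]

/-- nested pairs -/
def nest (p : M × M → M) : ∀ k : ℕ, (Fin (k + 1) → M) → M
  | 0, x => p (x 0, x 0)
  | k + 1, x => p (x 0, nest p k fun j => x j.succ)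

lemma nest_pol {p : M × M → M} (hp : ∀ x y, m.d (p x) (p y) = (prodMet m).d x y) (k : ℕ) :
    nest p k ∈ Pol m k := by
  induction k with
  | zero =>
    intro q x y hxy
    change m.d (p _) (p _) ≤ q
    rw [hp]
    exact max_le (hxy 0) (hxy 0)
  | succ k ih =>
    intro q x y hxy
    change m.d (p _) (p _) ≤ q
    rw [hp]
    exact max_le (hxy 0) (ih q _ _ fun j => hxy _)

lemma nest_coord {p : M × M → M} {l r : M → M} (hl : ∀ x, l (p x) = x.1) (hr : ∀ x, r (p x) = x.2)
    (k : ℕ) (x : Fin (k + 1) → M) (j : Fin (k + 1)) : l (r^[(j : ℕ)] (nest p k x)) = x j := by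
  induction k with
  | zero =>
    have : j = 0 := Fin.ext (by omega)
    subst this
    exact hl _
  | succ k ih =>
    refine Fin.cases ?_ (fun i => ?_) j
    · exact hl _
    · rw [Fin.val_succ, Function.iterate_succ_apply]
      change l (r^[(i : ℕ)] (r (p (x 0, nest p k fun j => x j.succ)))) = _
      rw [hr]
      exact ih (fun j => x j.succ) i

/-- every polymorphism is an endomorphism applied to nested pairs -/
theorem exists_endo {p : M × M → M} {l r : M → M} (hlN : NE m m l) (hrN : NE m m r)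
    (hl : ∀ x, l (p x) = x.1) (hr : ∀ x, r (p x) = x.2) {k : ℕ} {f : (Fin (k + 1) → M) → M}
    (hf : f ∈ Pol m k) : ∃ h : M → M, NE m m h ∧ ∀ x, f x = h (nest p k x) := by
  refine ⟨fun w => f fun j => l (r^[(j : ℕ)] w), fun w w' => ?_, fun x => ?_⟩
  · refine hf _ _ _ fun j => ?_
    exact (hlN _ _).trans (hrN.iterate _ _ _)
  · simp only [nest_coord hl hr]

/-- composition of a unary map with an operation, depth -/
lemma depth_un {T : OpFam M} {g : M → M} (hg : un g ∈ T 0) {k i : ℕ} {f : (Fin (k + 1) → M) → M}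
    (hf : f ∈ depth T k i) : (fun x => g (f x)) ∈ depth T k (i + 1) :=
  Or.inl ⟨0, un g, fun _ => f, hg, fun _ => hf, rfl⟩

lemma depth_iter {T : OpFam M} {g : M → M} (hg : un g ∈ T 0) {k i : ℕ} {f : (Fin (k + 1) → M) → M}
    (hf : f ∈ depth T k i) (n : ℕ) : (fun x => g^[n] (f x)) ∈ depth T k (i + n) := by
  induction n with
  | zero => exact hf
  | succ n ih =>
    have := depth_un hg ih
    refine Set.mem_of_eq_of_mem ?_ this
    funext x
    rw [Function.iterate_succ_apply']

/-- The Bergman property of the polymorphism clone of the rational Urysohn sphere. -/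
theorem bergman_sphere {m : RMet M} (h : IsUr (fun t => min t 1) m) : Bergman (Pol m) := by
  have hκ := isCap_min
  refine bergman_of (pol_isClone m) fun k f hf => ?_
  obtain ⟨x₀⟩ := h.nonempty hκ
  obtain ⟨p, l, r, hp, hlN, hrN, hl, hr⟩ := pairing hκ h
  choose G hGN hG using fun i => exists_endo hlN hrN hl hr (hf i)
  have hle1 : ∀ x y, m.d x y ≤ 1 := fun x y => by
    rw [← h.capped x y]
    exact min_le_right _ _
  obtain ⟨g, s, e, hg, hs, he, hgse⟩ := distort hκ h x₀ G hGN (by
    intro n j
    by_cases hnj : n = j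
    · subst hnj
      simp [m.self]
    · refine (hle1 _ _).trans ?_
      have h1 : (1 : ℤ) ≤ |(n : ℤ) - j| := by
        rw [← Int.zero_add 1, Int.add_one_le_iff, abs_pos]
        omega
      exact_mod_cast h1)
  refine ⟨[⟨0, un g⟩, ⟨0, un s⟩, ⟨0, un e⟩, ⟨k, nest p k⟩], ?_, fun i => ?_⟩
  · intro t ht
    simp only [List.mem_cons, List.not_mem_nil, or_false] at ht
    rcases ht with rfl | rfl | rfl | rfl
    · exact un_mem.2 hg
    · exact un_mem.2 hs
    · exact un_mem.2 he
    · exact nest_pol hp k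
  · have h1 : nest p k ∈ depth (ofList [⟨0, un g⟩, ⟨0, un s⟩, ⟨0, un e⟩, ⟨k, nest p k⟩]) k 1 :=
      depth_base _ (by simp [ofList])
    have h2 := depth_un (g := e) (by simp [ofList]) h1
    have h3 := depth_iter (g := s) (by simp [ofList]) h2 i
    have h4 := depth_un (g := g) (by simp [ofList]) h3
    have h5 : f i = fun x => g (s^[i] (e (nest p k x))) := by
      funext x
      rw [hG i x, hgse i]
    rw [h5]
    rw [show i + 3 = 1 + 1 + i + 1 by ring]
    exact h4

end X225.Ur
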