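import Pool.Agent.X225.Ur.Dist

/-!
# The rational Urysohn space: no Bergman property; uncountable cofinality
-/

set_option autoImplicit false

namespace X225.Ur

variable {M : Type} {κ : ℚ → ℚ} {m : RMet M}

/-- The polymorphism clone of the rational Urysohn space does not have the Bergman property. -/
theorem not_bergman_space {m : RMet M} (h : IsUr (fun t => t) m) : ¬ Bergman (Pol m) := by
  classical
  have hκ := isCap_id
  obtain ⟨x₀⟩ := h.nonempty hκ
  intro hB
  let H : OpFam M := fun n => {f | f ∈ Pol m n ∧ m.d (f fun _ => x₀) x₀ ≤ 1}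
  have hH : Generates H (Pol m) := by
    refine ⟨fun n f hf => hf.1, fun C hC hHC => ?_⟩
    have key : ∀ N : ℕ, ∀ n, ∀ f ∈ Pol m n, m.d (f fun _ => x₀) x₀ ≤ N → f ∈ C n := by
      intro N
      induction N with
      | zero =>
        intro n f hf hN
        refine hHC n ⟨hf, hN.trans ?_⟩
        norm_num
      | succ N ih =>
        intro n f hf hN
        obtain ⟨z, hz⟩ := h.balls hκ (Finset.univ : Finset Bool)
          (fun b => if b then x₀ else f fun _ => x₀) (fun b => if b then 1 else (N : ℚ)) (by
            have hN0 : (0 : ℚ) ≤ N := Nat.cast_nonneg N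
            push_cast at hN
            rintro (_ | _) - (_ | _) -
            · simp only [Bool.false_eq_true, if_false, m.self]
              linarith
            · simp only [Bool.false_eq_true, if_false, if_true]
              linarith
            · simp only [Bool.false_eq_true, if_false, if_true]
              rw [m.symm]
              linarith
            · simp only [if_true, m.self]
              norm_num)
        have hz1 : m.d z x₀ ≤ 1 := hz true (Finset.mem_univ _)
        have hz2 : m.d z (f fun _ => x₀) ≤ N := hz false (Finset.mem_univ _)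
        obtain ⟨α, hα, hα0⟩ := h.homogeneous {x₀} (fun _ => z) (by
          intro x hx y hy
          rw [Finset.mem_singleton] at hx hy
          rw [hx, hy, m.self, m.self])
        have hα0 : α x₀ = z := hα0 x₀ (Finset.mem_singleton_self _)
        have hαs : ∀ x y, m.d (α.symm x) (α.symm y) = m.d x y := fun x y => by
          rw [← hα, α.apply_symm_apply, α.apply_symm_apply]
        have h1 : un α ∈ C 0 := by
          refine hHC 0 ⟨un_mem.2 fun x y => (hα x y).le, ?_⟩
          change m.d (α x₀) x₀ ≤ 1
          rw [hα0]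
          exact hz1
        have h2 : (fun x => α.symm (f x)) ∈ C n := by
          refine ih n _ (fun q x y hxy => ?_) ?_
          · rw [hαs]
            exact hf q x y hxy
          · rw [← hα, α.apply_symm_apply, hα0, m.symm]
            exact hz2
        have h3 := hC.comp 0 n (un α) (fun _ x => α.symm (f x)) h1 fun _ => h2
        refine Set.mem_of_eq_of_mem ?_ h3
        funext x
        exact (α.apply_symm_apply _).symm
    intro n f hf
    obtain ⟨N, hN⟩ := exists_nat_ge (m.d (f fun _ => x₀) x₀)
    exact key N n f hf hN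
  have hdepth : ∀ (k i : ℕ), ∀ f ∈ depth H k i, m.d (f fun _ => x₀) x₀ ≤ i := by
    intro k i
    induction i with
    | zero =>
      rintro _ ⟨j, rfl⟩
      simp [m.self]
    | succ i ih =>
      rintro f (⟨n, f, g, hf, hg, rfl⟩ | hf)
      · have h1 := hf.1 i (fun j => g j fun _ => x₀) (fun _ => x₀) fun j => ih _ (hg j)
        have h2 := m.tri (f fun j => g j fun _ => x₀) (f fun _ => x₀) x₀
        have h3 := hf.2
        push_cast
        linarith
      · have := ih f hf
        push_cast
        linarith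
  obtain ⟨n, hn⟩ := hB H hH 0
  obtain ⟨y, hy⟩ := h.ope hκ {x₀} (fun _ => (n : ℚ) + 1) (fun _ _ => rfl)
    (fun b _ b' _ => by linarith [m.nonneg b b'])
    (fun b hb b' hb' => by
      rw [Finset.mem_singleton] at hb hb'
      rw [hb, hb', m.self]
      have : (0 : ℚ) ≤ n := Nat.cast_nonneg n
      linarith)
  have hy := hy x₀ (Finset.mem_singleton_self _)
  have h1 : un (fun _ : M => y) ∈ depth H 0 n := by
    rw [hn]
    refine un_mem.2 fun a b => ?_
    rw [m.self]
    exact m.nonneg a b
  have h2 := hdepth 0 n _ h1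
  change m.d y x₀ ≤ n at h2
  rw [hy] at h2
  linarith

/-- The natural numbers as a rational metric space. -/
def natMet : RMet ℕ where
  d := fun n k => |(n : ℚ) - k|
  eq_iff := fun n k => by
    rw [abs_eq_zero, sub_eq_zero]
    exact_mod_cast Iff.rfl
  symm := fun n k => abs_sub_comm _ _
  tri := fun n k l => abs_sub_le _ _ _

/-- every sequence of endomorphisms of the rational Urysohn space is contained in a finitely generated
monoid -/
theorem seq_space {m : RMet M} (h : IsUr (fun t => t) m) (f : ℕ → M → M) (hf : ∀ i, NE m m (f i)) :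
    ∃ (g s e : M → M) (N : ℕ → ℕ), NE m m g ∧ NE m m s ∧ NE m m e ∧
      ∀ i x, f i x = g (s^[N i] (e x)) := by
  classical
  have hκ := isCap_id
  obtain ⟨x₀⟩ := h.nonempty hκ
  -- the positions
  let N : ℕ → ℕ := fun i => ∑ j ∈ Finset.range i, (⌈m.d (f j x₀) (f (j + 1) x₀)⌉₊ + 1)
  have hNs : ∀ i, N (i + 1) = N i + (⌈m.d (f i x₀) (f (i + 1) x₀)⌉₊ + 1) := fun i =>
    Finset.sum_range_succ _ _
  have hmono : StrictMono N := strictMono_nat_of_lt_succ fun i => by rw [hNs]; omega
  have hN0 : N 0 = 0 := rfl
  have hstep : ∀ i k, m.d (f i x₀) (f (i + k) x₀) ≤ (N (i + k) : ℚ) - N i := by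
    intro i k
    induction k with
    | zero => simp [m.self]
    | succ k ih =>
      have h1 := m.tri (f i x₀) (f (i + k) x₀) (f (i + (k + 1)) x₀)
      have h2 : m.d (f (i + k) x₀) (f (i + (k + 1)) x₀) ≤
          (⌈m.d (f (i + k) x₀) (f (i + k + 1) x₀)⌉₊ : ℚ) := Nat.le_ceil _
      have h3 : (N (i + (k + 1)) : ℚ) =
          N (i + k) + ((⌈m.d (f (i + k) x₀) (f (i + k + 1) x₀)⌉₊ : ℚ) + 1) := by
        rw [← Nat.add_assoc, hNs]
        push_cast
        ring
      rw [h3]
      linarith
  have hdist : ∀ i j, m.d (f i x₀) (f j x₀) ≤ |(N i : ℚ) - N j| := by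
    intro i j
    rcases le_total i j with hij | hij
    · obtain ⟨k, rfl⟩ := Nat.exists_eq_add_of_le hij
      refine (hstep i k).trans ?_
      rw [abs_sub_comm]
      exact le_abs_self _
    · obtain ⟨k, rfl⟩ := Nat.exists_eq_add_of_le hij
      rw [m.symm]
      exact (hstep j k).trans (le_abs_self _)
  -- a path through the images of the base point
  have hfs : FinSupp (fun t => t) natMet (Set.range N) := by
    intro p
    obtain ⟨j, hj1, hj2⟩ : ∃ j, N j ≤ p ∧ p < N (j + 1) := by
      have hex : ∃ j, p < N (j + 1) := ⟨p, lt_of_lt_of_le (Nat.lt_succ_self p) (hmono.le_apply)⟩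
      refine ⟨Nat.find hex, ?_, Nat.find_spec hex⟩
      by_cases h0 : Nat.find hex = 0
      · rw [h0, hN0]
        exact Nat.zero_le _
      · obtain ⟨i, hi⟩ := Nat.exists_eq_succ_of_ne_zero h0
        have := Nat.find_min hex (m := i) (by omega)
        rw [hi]
        exact not_lt.1 this
    refine ⟨{N j, N (j + 1)}, ?_, ?_⟩
    · intro y hy
      simp only [Finset.coe_insert, Finset.coe_singleton, Set.mem_insert_iff,
        Set.mem_singleton_iff] at hy
      rcases hy with rfl | rfl <;> exact ⟨_, rfl⟩
    · rintro _ ⟨i, rfl⟩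
      by_cases hij : i ≤ j
      · refine ⟨N j, by simp, ?_⟩
        have h1 : N i ≤ N j := hmono.monotone hij
        have h1' : (N i : ℚ) ≤ N j := by exact_mod_cast h1
        have h2' : (N j : ℚ) ≤ p := by exact_mod_cast hj1
        change |(p : ℚ) - N j| + |(N j : ℚ) - N i| ≤ |(p : ℚ) - N i|
        rw [abs_of_nonneg (by linarith), abs_of_nonneg (by linarith), abs_of_nonneg (by linarith)]
        linarith
      · refine ⟨N (j + 1), by simp, ?_⟩
        have h1 : N (j + 1) ≤ N i := hmono.monotone (by omega)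
        have h1' : (N (j + 1) : ℚ) ≤ N i := by exact_mod_cast h1
        have h2' : (p : ℚ) ≤ N (j + 1) := by exact_mod_cast hj2.le
        change |(p : ℚ) - N (j + 1)| + |(N (j + 1) : ℚ) - N i| ≤ |(p : ℚ) - N i|
        rw [abs_of_nonpos (by linarith), abs_of_nonpos (by linarith), abs_of_nonpos (by linarith)]
        linarith
  obtain ⟨z, hz, hz'⟩ := extend hκ h (e := natMet) hfs
    (fun n => if hn : ∃ i, N i = n then f hn.choose x₀ else x₀) (by
      rintro _ ⟨i, rfl⟩ _ ⟨j, rfl⟩
      have h1 : ∀ i, (if hn : ∃ i', N i' = N i then f hn.choose x₀ else x₀) = f i x₀ := by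
        intro i
        rw [dif_pos ⟨i, rfl⟩]
        rw [hmono.injective (Exists.choose_spec (⟨i, rfl⟩ : ∃ i', N i' = N i))]
      simp only [h1]
      exact hdist i j)
  have hzN : ∀ i, z (N i) = f i x₀ := by
    intro i
    rw [hz' _ ⟨i, rfl⟩, dif_pos ⟨i, rfl⟩]
    rw [hmono.injective (Exists.choose_spec (⟨i, rfl⟩ : ∃ i', N i' = N i))]
  let G : ℕ → M → M := fun n => if hn : ∃ i, N i = n then f hn.choose else fun _ => z n
  have hGN : ∀ i, G (N i) = f i := by
    intro i
    change (if hn : ∃ i', N i' = N i then f hn.choose else fun _ => z (N i)) = f i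
    rw [dif_pos ⟨i, rfl⟩]
    rw [hmono.injective (Exists.choose_spec (⟨i, rfl⟩ : ∃ i', N i' = N i))]
  have hG0 : ∀ n, G n x₀ = z n := by
    intro n
    by_cases hn : ∃ i, N i = n
    · obtain ⟨i, rfl⟩ := hn
      rw [hGN, hzN]
    · change (if hn : ∃ i', N i' = n then f hn.choose else fun _ => z n) x₀ = z n
      rw [dif_neg hn]
  have hG : ∀ n, NE m m (G n) := by
    intro n
    by_cases hn : ∃ i, N i = n
    · obtain ⟨i, rfl⟩ := hn
      rw [hGN]
      exact hf i
    · have : G n = fun _ => z n := dif_neg hn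
      rw [this]
      intro x y
      rw [m.self]
      exact m.nonneg x y
  obtain ⟨g, s, e, hg, hs, he, hgse⟩ := distort hκ h x₀ G hG (by
    intro n k
    rw [hG0, hG0]
    exact hz n k)
  refine ⟨g, s, e, N, hg, hs, he, fun i x => ?_⟩
  rw [← hgse, hGN]

/-- the same for the sphere -/
theorem seq_sphere {m : RMet M} (h : IsUr (fun t => min t 1) m) (f : ℕ → M → M)
    (hf : ∀ i, NE m m (f i)) :
    ∃ (g s e : M → M) (N : ℕ → ℕ), NE m m g ∧ NE m m s ∧ NE m m e ∧
      ∀ i x, f i x = g (s^[N i] (e x)) := by
  have hκ := isCap_min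
  obtain ⟨x₀⟩ := h.nonempty hκ
  have hle1 : ∀ x y, m.d x y ≤ 1 := fun x y => by
    rw [← h.capped x y]
    exact min_le_right _ _
  obtain ⟨g, s, e, hg, hs, he, hgse⟩ := distort hκ h x₀ f hf (by
    intro n j
    by_cases hnj : n = j
    · subst hnj
      simp [m.self]
    · refine (hle1 _ _).trans ?_
      have h1 : (1 : ℤ) ≤ |(n : ℤ) - j| := by
        rw [← Int.zero_add 1, Int.add_one_le_iff, abs_pos]
        omega
      exact_mod_cast h1)
  exact ⟨g, s, e, fun i => i, hg, hs, he, fun i x => hgse i x⟩

lemma depth_countable (T : List (Σ n : ℕ, (Fin (n + 1) → M) → M)) (k i : ℕ) :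
    (depth (ofList T) k i).Countable := by
  induction i with
  | zero => exact Set.countable_range _
  | succ i ih =>
    refine Set.Countable.union ?_ ih
    have h1 : (⋃ t ∈ {t | t ∈ T}, (fun (g : Fin (t.1 + 1) → (Fin (k + 1) → M) → M)
        (x : Fin (k + 1) → M) => t.2 fun j => g j x) ''
          {g | ∀ j, g j ∈ depth (ofList T) k i}).Countable := by
      refine Set.Countable.biUnion (List.finite_toSet T).countable fun t _ => ?_
      exact (Set.countable_pi fun _ => ih).image _
    refine h1.mono ?_
    rintro h ⟨n, f, g, hf, hg, rfl⟩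
    exact Set.mem_iUnion₂.2 ⟨⟨n, f⟩, hf, g, hg, rfl⟩

/-- the discrete metric on the natural numbers -/
def discMet (hκ : IsCap κ) : RMet ℕ where
  d := fun n k => if n = k then 0 else κ 1
  eq_iff := fun n k => by
    by_cases h : n = k
    · simp [h]
    · simp only [h, if_false, iff_false]
      exact (hκ.pos 1 one_pos).ne'
  symm := fun n k => by simp only [eq_comm]
  tri := fun n k l => by
    have h := hκ.pos 1 one_pos
    by_cases h1 : n = k
    · subst h1
      simp
    · by_cases h2 : n = l
      · subst h2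
        simp only [h1, if_false, if_true]
        split_ifs <;> linarith
      · simp only [h1, h2, if_false]
        split_ifs <;> linarith

/-- the polymorphism clone is not finitely generated: it has uncountably many unary members -/
theorem not_fg (hκ : IsCap κ) (h : IsUr κ m) :
    ¬ ∃ T : List (Σ n : ℕ, (Fin (n + 1) → M) → M), Generates (ofList T) (Pol m) := by
  classical
  rintro ⟨T, -, hT⟩
  have hc := h.countable
  have hcount : (Pol m 0).Countable := by
    refine (Set.countable_iUnion fun i => depth_countable T 0 i).mono ?_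
    exact hT (gen (ofList T)) (gen_isClone _) (subset_gen _) 0
  have hcap : Capped κ (discMet hκ) := by
    intro n k
    change κ (ite _ _ _) = ite _ _ _
    split_ifs
    · exact hκ.zero
    · exact hκ.idem _
  obtain ⟨E, hE, hfs⟩ := embed (e := discMet hκ) hκ h hcap
  have hinj : Function.Injective E := by
    intro x y hxy
    rw [← (discMet hκ).eq_iff, ← hE, hxy, m.self]
  have hd : ∀ n k : ℕ, n ≠ k → (discMet hκ).d n k = κ 1 := fun n k hnk => if_neg hnk
  have hle : ∀ n k : ℕ, (discMet hκ).d n k ≤ κ 1 := fun n k => by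
    change ite _ _ _ ≤ κ 1
    have := hκ.pos 1 one_pos
    split_ifs <;> linarith
  have hne : Nonempty M := ⟨E 0⟩
  have hS : ∀ S : Set ℕ, ∃ g : M → M, NE m m g ∧ ∀ n, g (E n) = if n ∈ S then E 1 else E 0 := by
    intro S
    have h1 : ∀ n, (if E n ∈ E '' S then E 1 else E 0) = if n ∈ S then E 1 else E 0 := by
      intro n
      rw [hinj.mem_set_image]
    obtain ⟨g, hg, hg'⟩ := extend hκ h (e := m) hfs (fun w => if w ∈ E '' S then E 1 else E 0) (by
      rintro _ ⟨n, rfl⟩ _ ⟨k, rfl⟩
      simp only [h1]
      by_cases hnk : n = k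
      · subst hnk
        rw [m.self, m.self]
      · rw [hE n k, hd n k hnk]
        split_ifs <;> rw [hE] <;> exact hle _ _)
    exact ⟨g, hg, fun n => (hg' _ ⟨n, rfl⟩).trans (h1 n)⟩
  choose g hg hgE using hS
  have hginj : Function.Injective fun S : Set ℕ => (⟨un (g S), un_mem.2 (hg S)⟩ : Pol m 0) := by
    intro S S' hSS
    have h1 : un (g S) = un (g S') := congrArg Subtype.val hSS
    have h01 : E 1 ≠ E 0 := fun h' => absurd (hinj h') (by norm_num)
    ext n
    have h2 : g S (E n) = g S' (E n) := congrFun h1 fun _ => E n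
    rw [hgE, hgE] at h2
    by_cases hn : n ∈ S <;> by_cases hn' : n ∈ S'
    · simp [hn, hn']
    · rw [if_pos hn, if_neg hn'] at h2
      exact absurd h2 h01
    · rw [if_neg hn, if_pos hn'] at h2
      exact absurd h2.symm h01
    · simp [hn, hn']
  have : Countable (Pol m 0) := hcount.to_subtype
  have h3 : Countable (Set ℕ) := hginj.countable
  obtain ⟨φ, hφ⟩ := h3.exists_injective_nat
  exact Function.cantor_injective φ hφ

/-- uncountable cofinality from the finite generation of sequences of endomorphisms -/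
theorem cofinality_of (hκ : IsCap κ) (h : IsUr κ m)
    (hseq : ∀ f : ℕ → M → M, (∀ i, NE m m (f i)) → ∃ (g s e : M → M) (N : ℕ → ℕ), NE m m g ∧
      NE m m s ∧ NE m m e ∧ ∀ i x, f i x = g (s^[N i] (e x))) :
    UncountableCofinality (Pol m) := by
  refine ⟨not_fg hκ h, ?_⟩
  rintro ⟨C, hC, hmono, hne, hU⟩
  have hsub : ∀ i n, C i n ⊆ Pol m n := fun i n => (Set.subset_iUnion _ i).trans (hU n).subset
  have hex : ∀ i, ∃ n, ∃ f ∈ Pol m n, f ∉ C i n := by
    intro i
    by_contra hcon
    push Not at hcon
    exact hne i (funext fun n => Set.Subset.antisymm (hsub i n) (hcon n))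
  choose n f hf hf' using hex
  obtain ⟨p, l, r, hp, hlN, hrN, hl, hr⟩ := pairing hκ h
  choose G hGN hG using fun i => exists_endo hlN hrN hl hr (hf i)
  obtain ⟨g, s, e, N, hg, hs, he, hgse⟩ := hseq G hGN
  have hin : ∀ {k : ℕ} {f : (Fin (k + 1) → M) → M}, f ∈ Pol m k → ∃ i, f ∈ C i k := by
    intro k f hf
    rw [← hU] at hf
    exact Set.mem_iUnion.1 hf
  obtain ⟨i1, h1⟩ := hin (un_mem.2 hg)
  obtain ⟨i2, h2⟩ := hin (un_mem.2 hs)
  obtain ⟨i3, h3⟩ := hin (un_mem.2 he)
  have hpp : (fun x : Fin (1 + 1) → M => p (x 0, x 1)) ∈ Pol m 1 := by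
    intro q x y hxy
    change m.d (p _) (p _) ≤ q
    rw [hp]
    exact max_le (hxy 0) (hxy 1)
  obtain ⟨i4, h4⟩ := hin hpp
  let I := max (max i1 i2) (max i3 i4)
  have h1 : un g ∈ C I 0 := hmono i1 I (by omega) 0 h1
  have h2 : un s ∈ C I 0 := hmono i2 I (by omega) 0 h2
  have h3 : un e ∈ C I 0 := hmono i3 I (by omega) 0 h3
  have h4 := hmono i4 I (by omega) 1 h4
  have hcu : ∀ {a : M → M} (_ : un a ∈ C I 0) {k : ℕ} {f : (Fin (k + 1) → M) → M} (_ : f ∈ C I k),
      (fun x => a (f x)) ∈ C I k := fun {a} ha {k f} hf =>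
    (hC I).comp 0 k (un a) (fun _ => f) ha fun _ => hf
  have hnest : ∀ k, nest p k ∈ C I k := by
    intro k
    induction k with
    | zero =>
      exact (hC I).comp 1 0 _ (fun _ x => x 0) h4 fun _ => (hC I).proj 0 0
    | succ k ih =>
      have h5 : (fun x : Fin (k + 1 + 1) → M => nest p k fun j => x j.succ) ∈ C I (k + 1) :=
        (hC I).comp k (k + 1) _ (fun j x => x j.succ) ih fun j => (hC I).proj (k + 1) j.succ
      have h6 := (hC I).comp 1 (k + 1) _
        (fun j x => if j = 0 then x 0 else nest p k fun j => x j.succ) h4 (by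
          intro j
          by_cases hj : j = 0
          · simp only [hj, if_true]
            exact (hC I).proj (k + 1) 0
          · simp only [hj, if_false]
            exact h5)
      exact h6
  have hit : ∀ (N k : ℕ) {f : (Fin (k + 1) → M) → M} (_ : f ∈ C I k),
      (fun x => s^[N] (f x)) ∈ C I k := by
    intro N k f hf
    induction N with
    | zero => exact hf
    | succ N ih =>
      refine Set.mem_of_eq_of_mem ?_ (hcu h2 ih)
      funext x
      rw [Function.iterate_succ_apply']
  refine hf' I ?_
  refine Set.mem_of_eq_of_mem ?_ (hcu h1 (hit (N I) (n I) (hcu h3 (hnest (n I)))))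
  funext x
  rw [hG I x, hgse I]

end X225.Ur
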